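import Pool.Agent.X185.RD.Groups

/-!
The groups `G_{m,1}` and `G_{1,m}` with the walk or switch generators have unbounded retreat depth.
-/

set_option autoImplicit false

namespace Pool.Agent.Results.MP_6c6968_al.UnboundedRetreatDepth

open Pool.Agent.X185.RD

/-- For every `m ≥ 2` the Cayley graphs of the groups `G_{m,1}` and `G_{1,m}` with respect to
`S₁ = {a, a⁻¹, t, t⁻¹}`, `a = (1,0)`, `t = (0,1)`, have unbounded retreat depth. -/
theorem result (m : ℕ) [NeZero m] (hm : 2 ≤ m) :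
    ¬ BoundedRetreatDepth ({ga m 1, (ga m 1)⁻¹, gt m 1, (gt m 1)⁻¹} : Set (Gpq m 1)) ∧
    ¬ BoundedRetreatDepth ({ga 1 m, (ga 1 m)⁻¹, gt 1 m, (gt 1 m)⁻¹} : Set (Gpq 1 m)) := by
  refine ⟨(modelL hm).unbounded hm, ?_⟩
  have h := (modelR hm).unbounded hm
  have e : gens (ga 1 m) (gt 1 m)⁻¹ =
      ({ga 1 m, (ga 1 m)⁻¹, gt 1 m, (gt 1 m)⁻¹} : Set (Gpq 1 m)) := by
    unfold gens
    rw [inv_inv]
    ext x
    simp only [Set.mem_insert_iff, Set.mem_singleton_iff]
    tauto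
  rwa [e] at h

end Pool.Agent.Results.MP_6c6968_al.UnboundedRetreatDepth
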